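import Pool.Agent.Helper63.HM.Cone

/-!
# A plane with few points outside

`crit4_plane0`: every point `z` off the plane `P` has a line `y ⊔ y'` of `P` such that the plane
`z ⊔ y ⊔ y'` contains no other point off `P`.  `crit4_plane1`: this is the case when every point
of `P` is on at least `k` lines of `P`, `k` = number of points off `P`.  `crit4_plane` is the form
with ranks of joins.
-/

set_option autoImplicit false
set_option linter.unusedSectionVars false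

namespace Pool.Agent.Helper51.SL

open Pool.Agent.Helper28.BPack Pool.Agent.Helper61.Motz Pool.Agent.Helper63.HM

variable {L : Type} [Lattice L] [BoundedOrder L] [Finite L] [IsUpperModularLattice L]

/-- The data of a plane and of the points off it with private planes. -/
theorem crit4_plane0 [DecidableEq L] [DecidableRel (α := L) (· ≤ ·)] {A : Finset L} {P o : L}
    (hA : ∀ a ∈ A, IsAtom a) (hP : rk P = 3) (ho : o ∈ A) (hoP : ¬ o ≤ P)
    (tri : ∃ a ∈ A, ∃ e ∈ A, ∃ t ∈ A, a ≤ P ∧ e ≤ P ∧ t ≤ P ∧ rk (a ⊔ e ⊔ t) = 3)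
    (hz : ∀ z ∈ A, ¬ z ≤ P → z ≠ o → ∃ y ∈ A, ∃ y' ∈ A, y ≤ P ∧ y' ≤ P ∧ y ≠ y' ∧
      ∀ z' ∈ A, ¬ z' ≤ P → z' ≤ z ⊔ y ⊔ y' → z' = z) : Crit4 A := by
  classical
  have hmP : ∀ x, x ∈ A.filter (· ≤ P) ↔ x ∈ A ∧ x ≤ P := fun x => Finset.mem_filter
  have hB4 := crit4_base hA hP ho hoP (crit3_plane hA tri hP _ hmP)
  have hnB : ∀ x, x ∈ A → x ∉ insert o (A.filter (· ≤ P)) → ¬ x ≤ P ∧ x ≠ o := by
    intro x hx h
    rw [Finset.mem_insert, hmP] at h
    push Not at h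
    exact ⟨h.2 hx, h.1⟩
  have hBm : ∀ a, a ∈ insert o (A.filter (· ≤ P)) → a = o ∨ (a ∈ A ∧ a ≤ P) := by
    intro a ha
    rcases Finset.mem_insert.mp ha with h | h
    · exact Or.inl h
    · exact Or.inr ((hmP a).mp h)
  choose! f hf g hg hfP hgP hfg hpr using hz
  have hne : ∀ z y, ¬ z ≤ P → y ≤ P → z ≠ y := fun z y h h' e => h (e ▸ h')
  -- the plane has rank three
  have hr3 : ∀ z ∈ A, ¬ z ≤ P → z ≠ o → rk (z ⊔ f z ⊔ g z) = 3 := by
    intro z h1 h2 h3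
    have e : z ⊔ f z ⊔ g z = f z ⊔ g z ⊔ z := by rw [sup_assoc, sup_comm]
    rw [e, rk_sup_atom (hA z h1) (fun h => h2 (h.trans (sup_le (hfP z h1 h2 h3)
      (hgP z h1 h2 h3)))), rk_line (hA _ (hf z h1 h2 h3)) (hA _ (hg z h1 h2 h3))
      (hfg z h1 h2 h3)]
  have hl1 : ∀ z ∈ A, ¬ z ≤ P → z ≠ o → rk (z ⊔ f z) = 2 := fun z h1 h2 h3 =>
    rk_line (hA z h1) (hA _ (hf z h1 h2 h3)) (hne _ _ h2 (hfP z h1 h2 h3))
  have hl2 : ∀ z ∈ A, ¬ z ≤ P → z ≠ o → rk (z ⊔ g z) = 2 := fun z h1 h2 h3 =>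
    rk_line (hA z h1) (hA _ (hg z h1 h2 h3)) (hne _ _ h2 (hgP z h1 h2 h3))
  have hle1 : ∀ z, z ⊔ f z ≤ z ⊔ f z ⊔ g z := fun z => le_sup_left
  have hle2 : ∀ z, z ⊔ g z ≤ z ⊔ f z ⊔ g z := fun z =>
    sup_le (le_sup_left.trans le_sup_left) le_sup_right
  -- the points of the base below the plane of `z` are in `P`
  have hbase : ∀ z ∈ A, ¬ z ≤ P → z ≠ o → ∀ a ∈ insert o (A.filter (· ≤ P)),
      a ≤ z ⊔ f z ⊔ g z → a ∈ A ∧ a ≤ P := by
    intro z h1 h2 h3 a ha hal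
    rcases hBm a ha with rfl | h
    · exact absurd (hpr z h1 h2 h3 a ho hoP hal).symm h3
    · exact h
  refine nPeel (B := insert o (A.filter (· ≤ P))) (c' := f) (d' := g) hA ?_ hB4 ?_ ?_ ?_ ?_ ?_
    ?_ ?_ ?_
  · intro a ha
    rcases hBm a ha with rfl | h
    · exact ho
    · exact h.1
  · intro x hx hxB
    obtain ⟨h1, h2⟩ := hnB x hx hxB
    exact ⟨hf x hx h1 h2, hg x hx h1 h2, hr3 x hx h1 h2⟩
  · intro x hx hxB y hy hyB e
    obtain ⟨h1, h2⟩ := hnB x hx hxB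
    obtain ⟨k1, k2⟩ := hnB y hy hyB
    exact (hpr x hx h1 h2 y hy k1 ((e ▸ le_sup_left : y ≤ x ⊔ f x).trans (hle1 x))).symm
  · intro x hx hxB y hy hyB e
    obtain ⟨h1, h2⟩ := hnB x hx hxB
    obtain ⟨k1, k2⟩ := hnB y hy hyB
    exact (hpr x hx h1 h2 y hy k1 ((e ▸ le_sup_left : y ≤ x ⊔ g x).trans (hle2 x))).symm
  · intro x hx hxB y hy hyB e
    obtain ⟨h1, h2⟩ := hnB x hx hxB
    obtain ⟨k1, k2⟩ := hnB y hy hyB
    have h3 := hpr x hx h1 h2 y hy k1 ((e ▸ le_sup_left : y ≤ x ⊔ f x).trans (hle1 x))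
    subst h3
    have h4 : y ⊔ f y ⊔ g y = y ⊔ f y := sup_eq_left.mpr (by rw [e]; exact le_sup_right)
    have h5 := hr3 y hy k1 k2
    rw [h4, hl1 y hy k1 k2] at h5
    omega
  · intro x hx hxB y hy hyB e
    obtain ⟨h1, h2⟩ := hnB x hx hxB
    obtain ⟨k1, k2⟩ := hnB y hy hyB
    exact (hpr x hx h1 h2 y hy k1 (e ▸ (le_sup_left.trans le_sup_left))).symm
  · intro x hx hxB a ha e he hae hal hel
    obtain ⟨h1, h2⟩ := hnB x hx hxB
    have h3 := hbase x hx h1 h2 a ha (hal.trans (hle1 x))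
    have h4 := hbase x hx h1 h2 e he (hel.trans (hle1 x))
    have h5 := line_eq (hA a h3.1) (hA e h4.1) hae hal hel (hl1 x hx h1 h2)
    exact h1 ((le_sup_left : x ≤ x ⊔ f x).trans (h5 ▸ sup_le h3.2 h4.2))
  · intro x hx hxB a ha e he hae hal hel
    obtain ⟨h1, h2⟩ := hnB x hx hxB
    have h3 := hbase x hx h1 h2 a ha (hal.trans (hle2 x))
    have h4 := hbase x hx h1 h2 e he (hel.trans (hle2 x))
    have h5 := line_eq (hA a h3.1) (hA e h4.1) hae hal hel (hl2 x hx h1 h2)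
    exact h1 ((le_sup_left : x ≤ x ⊔ g x).trans (h5 ▸ sup_le h3.2 h4.2))
  · intro x hx hxB a ha e he t ht hr hal hel htl
    obtain ⟨h1, h2⟩ := hnB x hx hxB
    have h3 := hbase x hx h1 h2 a ha hal
    have h4 := hbase x hx h1 h2 e he hel
    have h5 := hbase x hx h1 h2 t ht htl
    have h6 : a ⊔ e ⊔ t = x ⊔ f x ⊔ g x :=
      eq_of_le_of_rk (sup_le (sup_le hal hel) htl) (by rw [hr, hr3 x hx h1 h2])
    exact h1 ((le_sup_left.trans le_sup_left : x ≤ x ⊔ f x ⊔ g x).trans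
      (h6 ▸ sup_le (sup_le h3.2 h4.2) h5.2))

/-- **A plane with few points outside.**  Every point of the plane `P` is on at least `k` lines of
`P`, where `k` is the number of points off `P`. -/
theorem crit4_plane1 [DecidableEq L] [DecidableRel (α := L) (· ≤ ·)] {A : Finset L} {P : L}
    (hA : ∀ a ∈ A, IsAtom a) (hP : rk P = 3) (hoP : ∃ o ∈ A, ¬ o ≤ P)
    (tri : ∃ a ∈ A, ∃ e ∈ A, ∃ t ∈ A, a ≤ P ∧ e ≤ P ∧ t ≤ P ∧ rk (a ⊔ e ⊔ t) = 3)
    (hdeg : ∀ y ∈ A, y ≤ P → (A.filter (fun z => ¬ z ≤ P)).card ≤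
      ((A.filter (fun y' => y' ≤ P ∧ y' ≠ y)).image (fun y' => y ⊔ y')).card) : Crit4 A := by
  classical
  obtain ⟨o, ho, hoP⟩ := hoP
  refine crit4_plane0 hA hP ho hoP tri ?_
  intro z hz hzP _
  set K := A.filter (fun z => ¬ z ≤ P) with hK
  have hzK : z ∈ K := Finset.mem_filter.mpr ⟨hz, hzP⟩
  have hKz : (K.erase z).card < K.card := Finset.card_erase_lt_of_mem hzK
  -- a point `y` of `P` such that `z ⊔ y` has no other point off `P`
  obtain ⟨y, hy, hyP, hyz⟩ : ∃ y ∈ A, y ≤ P ∧ ∀ z' ∈ K.erase z, ¬ z' ≤ z ⊔ y := by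
    by_contra hcon
    push Not at hcon
    choose! φ hφ1 hφ2 using hcon
    have hcard : (A.filter (· ≤ P)).card ≤ (K.erase z).card := by
      refine Finset.card_le_card_of_injOn φ ?_ ?_
      · intro y hy
        obtain ⟨h1, h2⟩ := Finset.mem_filter.mp hy
        exact hφ1 y h1 h2
      · intro y hy y' hy' e
        obtain ⟨h1, h2⟩ := Finset.mem_filter.mp hy
        obtain ⟨k1, k2⟩ := Finset.mem_filter.mp hy'
        by_contra hne
        have h3 := hφ2 y h1 h2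
        have h4 := hφ2 y' k1 k2
        rw [← e] at h4
        obtain ⟨h5, h6⟩ := Finset.mem_erase.mp (hφ1 y h1 h2)
        obtain ⟨h7, h8⟩ := Finset.mem_filter.mp h6
        have r1 : rk (z ⊔ y) = 2 := rk_line (hA z hz) (hA y h1) (fun e => hzP (e ▸ h2))
        have r2 : rk (z ⊔ y') = 2 := rk_line (hA z hz) (hA y' k1) (fun e => hzP (e ▸ k2))
        have e1 := line_eq (hA _ hz) (hA _ h7) (Ne.symm h5) le_sup_left h3 r1
        have e2 := line_eq (hA _ hz) (hA _ h7) (Ne.symm h5) le_sup_left h4 r2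
        have h9 : y' ≤ z ⊔ y := by rw [← e1, e2]; exact le_sup_right
        have e3 := line_eq (hA y h1) (hA y' k1) hne le_sup_right h9 r1
        exact hzP ((le_sup_left : z ≤ z ⊔ y).trans (e3 ▸ sup_le h2 k2))
    obtain ⟨a, ha, e, he, t, ht, haP, -⟩ := tri
    have h1 := hdeg a ha haP
    have h2 : ((A.filter (fun y' => y' ≤ P ∧ y' ≠ a)).image (fun y' => a ⊔ y')).card ≤
        (A.filter (· ≤ P)).card := by
      refine Finset.card_image_le.trans (Finset.card_le_card ?_)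
      intro x hx
      rw [Finset.mem_filter] at hx ⊢
      exact ⟨hx.1, hx.2.1⟩
    omega
  -- a line of `P` through `y`
  obtain ⟨y', hy', hyP', hne, hgood⟩ : ∃ y' ∈ A, y' ≤ P ∧ y' ≠ y ∧
      ∀ z' ∈ K.erase z, ¬ z' ≤ z ⊔ y ⊔ y' := by
    by_contra hcon
    push Not at hcon
    choose! φ hφ1 hφ2 using hcon
    set I := (A.filter (fun y' => y' ≤ P ∧ y' ≠ y)).image (fun y' => y ⊔ y') with hI
    have hsel : ∀ l ∈ I, ∃ y', y' ∈ A ∧ y' ≤ P ∧ y' ≠ y ∧ y ⊔ y' = l := by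
      intro l hl
      obtain ⟨y', h1, h2⟩ := Finset.mem_image.mp hl
      obtain ⟨h3, h4, h5⟩ := Finset.mem_filter.mp h1
      exact ⟨y', h3, h4, h5, h2⟩
    choose! ψ hψ1 hψ2 hψ3 hψ4 using hsel
    have hcard : I.card ≤ (K.erase z).card := by
      refine Finset.card_le_card_of_injOn (fun l => φ (ψ l)) ?_ ?_
      · intro l hl
        exact hφ1 _ (hψ1 l hl) (hψ2 l hl) (hψ3 l hl)
      · intro l hl l' hl' e
        by_contra hll
        replace e : φ (ψ l) = φ (ψ l') := e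
        have h3 := hφ2 _ (hψ1 l hl) (hψ2 l hl) (hψ3 l hl)
        have h4 := hφ2 _ (hψ1 l' hl') (hψ2 l' hl') (hψ3 l' hl')
        rw [← e] at h4
        have h5' := hφ1 _ (hψ1 l hl) (hψ2 l hl) (hψ3 l hl)
        obtain ⟨h5, h6⟩ := Finset.mem_erase.mp h5'
        obtain ⟨h7, h8⟩ := Finset.mem_filter.mp h6
        have r0 : rk (z ⊔ y) = 2 := rk_line (hA z hz) (hA y hy) (fun e => hzP (e ▸ hyP))
        have hnz := hyz _ h5'
        have r1 : rk (z ⊔ y ⊔ φ (ψ l)) = 3 := by rw [rk_sup_atom (hA _ h7) hnz, r0]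
        have r2 : rk (z ⊔ y ⊔ ψ l) ≤ 3 := by
          have := rk_sup_atom_le (x := z ⊔ y) (hA _ (hψ1 l hl))
          omega
        have r3 : rk (z ⊔ y ⊔ ψ l') ≤ 3 := by
          have := rk_sup_atom_le (x := z ⊔ y) (hA _ (hψ1 l' hl'))
          omega
        have e1 : z ⊔ y ⊔ φ (ψ l) = z ⊔ y ⊔ ψ l :=
          eq_of_le_of_rk (sup_le le_sup_left h3) (by omega)
        have e2 : z ⊔ y ⊔ φ (ψ l) = z ⊔ y ⊔ ψ l' :=
          eq_of_le_of_rk (sup_le le_sup_left h4) (by omega)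
        -- the three points `y`, `ψ l`, `ψ l'` span `P`
        have h9 : ¬ ψ l' ≤ y ⊔ ψ l := by
          intro h
          have h10 := line_eq (hA y hy) (hA _ (hψ1 l' hl')) (hψ3 l' hl').symm le_sup_left h
            (rk_line (hA y hy) (hA _ (hψ1 l hl)) (hψ3 l hl).symm)
          exact hll (by rw [← hψ4 l hl, ← hψ4 l' hl', h10])
        have r4 : rk (y ⊔ ψ l ⊔ ψ l') = 3 := by
          rw [rk_sup_atom (hA _ (hψ1 l' hl')) h9,
            rk_line (hA y hy) (hA _ (hψ1 l hl)) (hψ3 l hl).symm]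
        have h11 : y ⊔ ψ l ⊔ ψ l' ≤ z ⊔ y ⊔ ψ l :=
          sup_le (sup_le (le_sup_right.trans le_sup_left) le_sup_right)
            (by rw [← e1, e2]; exact le_sup_right)
        have h12 : y ⊔ ψ l ⊔ ψ l' = z ⊔ y ⊔ ψ l := eq_of_le_of_rk h11 (by omega)
        exact hzP ((le_sup_left.trans le_sup_left : z ≤ z ⊔ y ⊔ ψ l).trans
          (h12 ▸ sup_le (sup_le hyP (hψ2 l hl)) (hψ2 l' hl')))
    have h1 : K.card ≤ I.card := by
      have h0 := hdeg y hy hyP
      convert h0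
    omega
  refine ⟨y, hy, y', hy', hyP, hyP', hne.symm, ?_⟩
  intro z' hz' hzP' h
  by_contra hzz
  exact hgood z' (Finset.mem_erase.mpr ⟨hzz, Finset.mem_filter.mpr ⟨hz', hzP'⟩⟩) h

open Classical in
/-- **A plane with few points outside**, in the form used for short lines. -/
theorem crit4_plane [DecidableEq L] {A : Finset L} (hA : ∀ a ∈ A, IsAtom a)
    (hr : rk (A.sup id) = 4) {P : L} (hP : rk P = 3)
    (hP3 : rk ((A.filter (fun a => a ≤ P)).sup id) = 3)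
    (hd : ∀ x ∈ A, x ≤ P → (A.filter (fun a => ¬ a ≤ P)).card ≤
      (((A.filter (fun a => a ≤ P)).erase x).image (fun y => x ⊔ y)).card) : Crit4 A := by
  refine crit4_plane1 hA hP ?_ ?_ ?_
  · by_contra h
    push Not at h
    have h1 : A.sup id ≤ P := Finset.sup_le fun a ha => h a ha
    have h2 := rk_mono h1
    omega
  · set B := A.filter (fun a => a ≤ P) with hB
    have hBm : ∀ a, a ∈ B ↔ a ∈ A ∧ a ≤ P := fun a => Finset.mem_filter
    obtain ⟨a, haB⟩ : ∃ a, a ∈ B := by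
      by_contra h
      push Not at h
      have h1 : B.sup id ≤ ⊥ := Finset.sup_le fun a ha => absurd ha (h a)
      have h2 := rk_mono h1
      rw [rk_bot] at h2
      omega
    obtain ⟨e, heB, he⟩ : ∃ e ∈ B, ¬ e ≤ a := by
      by_contra h
      push Not at h
      have h1 : B.sup id ≤ a := Finset.sup_le fun e he => h e he
      have h2 := rk_mono h1
      rw [rk_atom (hA a ((hBm a).mp haB).1)] at h2
      omega
    have hae : a ≠ e := fun h => he h.symm.le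
    have r2 : rk (a ⊔ e) = 2 := rk_line (hA a ((hBm a).mp haB).1) (hA e ((hBm e).mp heB).1) hae
    obtain ⟨t, htB, ht⟩ : ∃ t ∈ B, ¬ t ≤ a ⊔ e := by
      by_contra h
      push Not at h
      have h1 : B.sup id ≤ a ⊔ e := Finset.sup_le fun t ht => h t ht
      have h2 := rk_mono h1
      omega
    refine ⟨a, ((hBm a).mp haB).1, e, ((hBm e).mp heB).1, t, ((hBm t).mp htB).1,
      ((hBm a).mp haB).2, ((hBm e).mp heB).2, ((hBm t).mp htB).2, ?_⟩
    rw [rk_sup_atom (hA t ((hBm t).mp htB).1) ht, r2]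
  · intro y hy hyP
    refine (hd y hy hyP).trans (le_of_eq ?_)
    congr 2
    ext x
    simp only [Finset.mem_erase, Finset.mem_filter, ne_eq]
    tauto

end Pool.Agent.Helper51.SL
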